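import Pool.Agent.P.MP_a35bd4_an.Final

/-! Ulam stability of all nuclear C*-algebras with respect to von Neumann algebras. -/

open scoped Topology

namespace Pool.Agent.Results.MP_a35bd4_an.UlamStable

universe u v

/-- A linear map between C*-algebras is contractive and completely positive: every amplification
sends each positive matrix `y* y` to a positive matrix `z* z`. -/
def IsCCP {A : Type u} {D : Type v} [NonUnitalCStarAlgebra A] [NonUnitalCStarAlgebra D]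
    (φ : A →ₗ[ℂ] D) : Prop :=
  (∀ a, ‖φ a‖ ≤ ‖a‖) ∧ ∀ (n : ℕ) (y : Matrix (Fin n) (Fin n) A),
    ∃ z : Matrix (Fin n) (Fin n) D, (star y * y).map φ = star z * z

/-- The identity of `A` factors through `D` by contractive completely positive maps, up to `η`
on the finite set `F`. -/
def FactorsThrough (A : Type u) (D : Type v) [NonUnitalCStarAlgebra A] [NonUnitalCStarAlgebra D]
    (F : Finset A) (η : ℝ) : Prop :=
  ∃ (α : A →ₗ[ℂ] D) (β : D →ₗ[ℂ] A), IsCCP α ∧ IsCCP β ∧ ∀ a ∈ F, ‖β (α a) - a‖ < η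

/-- Nuclearity: the identity map approximately factors, pointwise in norm, through full matrix
algebras (the operators on `ℂ^k`) by contractive completely positive maps. -/
def IsNuclear (A : Type u) [NonUnitalCStarAlgebra A] : Prop :=
  ∀ (F : Finset A) (η : ℝ), 0 < η → ∃ k : ℕ,
    FactorsThrough A (EuclideanSpace ℂ (Fin k) →L[ℂ] EuclideanSpace ℂ (Fin k)) F η

/-- `B` is star-isomorphic to the subset `S` of `C`. -/
def EmbedsOnto (B : Type u) {C : Type v} [NonUnitalCStarAlgebra B] [NonUnitalCStarAlgebra C]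
    (S : Set C) : Prop :=
  ∃ e : B →⋆ₙₐ[ℂ] C, Function.Injective e ∧ Set.range e = S

/-- `B` is star-isomorphic to a von Neumann algebra acting on some Hilbert space. -/
def IsVonNeumann (B : Type v) [NonUnitalCStarAlgebra B] : Prop :=
  ∃ (H : Type v) (_ : NormedAddCommGroup H) (_ : InnerProductSpace ℂ H) (_ : CompleteSpace H)
    (M : VonNeumannAlgebra H), EmbedsOnto B (M : Set (H →L[ℂ] H))

/-- An `ε`-star-homomorphism: no linearity or continuity is assumed. -/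
def IsApproxStarHom {A : Type u} {B : Type v} [NonUnitalCStarAlgebra A] [NonUnitalCStarAlgebra B]
    (ε : ℝ) (φ : A → B) : Prop :=
  ∀ (a b : A) (c : ℂ), ‖a‖ ≤ 1 → ‖b‖ ≤ 1 → ‖c‖ ≤ 1 →
    ‖φ a‖ ≤ 1 ∧ ‖φ (a + b) - φ a - φ b‖ ≤ ε ∧ ‖φ (a * b) - φ a * φ b‖ ≤ ε ∧
      ‖φ (star a) - star (φ a)‖ ≤ ε ∧ ‖φ (c • a) - c • φ a‖ ≤ ε

lemma map_star_mul {n : ℕ} {C D : Type*} [Ring C] [StarRing C] [Algebra ℂ C] [Ring D] [StarRing D]
    [Algebra ℂ D] (e : C ≃⋆ₐ[ℂ] D) (z : Matrix (Fin n) (Fin n) C) :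
    (star z * z).map e = star (z.map e) * z.map e := by
  ext i j
  simp [Matrix.mul_apply, map_star]

/-- There is one modulus `f` with `f ε → 0` such that every `ε`-star-homomorphism from a nuclear
C*-algebra to a von Neumann algebra is within `f ε` on the unit ball of a star-homomorphism. -/
theorem result :
    ∃ f : ℝ → ℝ, Filter.Tendsto f (𝓝 0) (𝓝 0) ∧
      ∀ (A : Type u) (B : Type v) [NonUnitalCStarAlgebra A] [NonUnitalCStarAlgebra B],
        IsNuclear A → IsVonNeumann B → ∀ ε : ℝ, 0 ≤ ε → ∀ φ : A → B, IsApproxStarHom ε φ →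
          ∃ ψ : A →⋆ₙₐ[ℂ] B, ∀ a, ‖a‖ ≤ 1 → ‖φ a - ψ a‖ ≤ f ε := by
  obtain ⟨f, h1, h2⟩ := Pool.Agent.P.MP_a35bd4_an.exists_modulus.{u, v}
  refine ⟨f, h1, fun A B _ _ hA ⟨H, _, _, _, M, e, he, hM⟩ ε hε φ hφ => ?_⟩
  have hn : ∀ b, ‖e b‖ = ‖b‖ := NonUnitalStarAlgHom.norm_map e he
  obtain ⟨ψ, hψ1, hψ2⟩ := h2 ε A (fun F η hη => by
    obtain ⟨k, α, β, ⟨a1, a2⟩, ⟨b1, b2⟩, h⟩ := hA F η hη
    let E := Matrix.toEuclideanCLM (𝕜 := ℂ) (n := Fin k)
    refine ⟨k, E.symm.toAlgEquiv.toLinearMap ∘ₗ α, β ∘ₗ E.toAlgEquiv.toLinearMap, fun n y => ?_,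
      fun n y => ?_, fun a => by simpa [E] using a1 a, fun N => b1 _,
      fun a ha => by simpa [E] using h a ha⟩
    · obtain ⟨z, hz⟩ := a2 n y
      exact ⟨z.map E.symm, by rw [← map_star_mul, ← hz]; rfl⟩
    · obtain ⟨z, hz⟩ := b2 n (y.map E)
      exact ⟨z, by rw [← hz, ← map_star_mul]; rfl⟩) H M hε (fun a => e (φ a))
    (fun a => by
      change _ ∈ (M : Set (H →L[ℂ] H))
      rw [← hM]
      exact ⟨_, rfl⟩)
    (fun a b c ha hb hc => by
      simpa only [← map_sub, ← map_mul, ← map_star, ← map_smul, hn] using hφ a b c ha hb hc)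
  have hr : ∀ a, ∃ b, e b = ψ a := fun a => by
    have : ψ a ∈ (M : Set (H →L[ℂ] H)) := hψ1 a
    rwa [← hM] at this
  choose g hg using hr
  refine ⟨⟨⟨⟨⟨g, fun c a => he ?_⟩, he ?_, fun a b => he ?_⟩, fun a b => he ?_⟩,
    fun a => he ?_⟩, fun a ha => ?_⟩
  · simp [hg]
  · simp [hg]
  · simp [hg]
  · simp [hg]
  · simp [hg, map_star]
  · change ‖φ a - g a‖ ≤ _
    rw [← hn, map_sub, hg]
    exact hψ2 a ha

end Pool.Agent.Results.MP_a35bd4_an.UlamStable
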